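import Pool.Agent.Work.MP_f6e909_al.GP.Defs

/-!
# Grothendieck pairs in Artin groups, second version (MP_f6e909_al): definitions

The sets `X`, `Y` and the blocks are as in `GP/Defs.lean`; the condition on the other generators
`w` is weaker: only even or infinite labels with `X ∪ Y`, and either only infinite labels with
`X ∪ Y`, or label `2` with at least one generator of each block of `X`, or label `2` with at least
one generator of each block of `Y`.
-/

namespace ProfArtin

/-- The hypothesis on the sets of generators `X`, `Y` with their blocks. -/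
structure SqW {S : Type} (M : CoxeterMatrix S) (X Y : Set S) (c d : S → Fin 2) : Prop where
  cX : ∀ i, ∃ x ∈ X, c x = i
  dY : ∀ i, ∃ y ∈ Y, d y = i
  XX : ∀ x ∈ X, ∀ x' ∈ X, c x ≠ c x' → M x x' = 0
  YY : ∀ y ∈ Y, ∀ y' ∈ Y, d y ≠ d y' → M y y' = 0
  XY : ∀ x ∈ X, ∀ y ∈ Y, M x y = 2
  ev : ∀ w, w ∉ X → w ∉ Y → ∀ z ∈ X ∪ Y, Even (M w z)
  W : ∀ w, w ∉ X → w ∉ Y → (∀ z ∈ X ∪ Y, M w z = 0) ∨
    (∀ i, ∃ x ∈ X, c x = i ∧ M w x = 2) ∨ (∀ i, ∃ y ∈ Y, d y = i ∧ M w y = 2)

/-- the generators in `X` with label `2` with `w` -/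
def cen {S : Type} (M : CoxeterMatrix S) (X : Set S) (w : S) : Set S := {x | x ∈ X ∧ M w x = 2}

end ProfArtin
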