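import Pool.Agent.Work.MP_f6e909_al.GQ.Key
import Pool.Agent.Work.MP_f6e909_al.GP.Ext0

/-!
# Homomorphisms of `PP` to finite groups extend to the Artin group, weaker hypothesis

As in `GP/ExtW.lean`: `ext0` gives `f : ⟨X⟩ → Γ`, `g : ⟨Y⟩ → Γ`; define `Θ` on the generators by
`f`, `g`, `θ`. The relations between `w` outside and `z ∈ X ∪ Y` follow from `key` (with `C` the
subgroup generated by the generators in `X`, or in `Y`, which have label `2` with `w`) and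
`pow_rel`.
-/

namespace ProfArtin

variable {S : Type} {M : CoxeterMatrix S} {X Y : Set S} {c d : S → Fin 2}
  {ρ : ArtinGroup M →* F2 × F2}

/-- the first projection, on `⟨X⟩` -/
private def ewp (M : CoxeterMatrix S) (X : Set S) (ρ : ArtinGroup M →* F2 × F2) : GX M X →* QQ :=
  (piQ.comp ((MonoidHom.fst F2 F2).comp ρ)).comp (GX M X).subtype

/-- the second projection, on `⟨Y⟩` -/
private def ewq (M : CoxeterMatrix S) (Y : Set S) (ρ : ArtinGroup M →* F2 × F2) : GX M Y →* QQ :=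
  (piQ.comp ((MonoidHom.snd F2 F2).comp ρ)).comp (GX M Y).subtype

private theorem ew_mem (ρ : ArtinGroup M →* F2 × F2) (x : fib (ewp M X ρ) (ewq M Y ρ)) :
    (x.1.1 : ArtinGroup M) * (x.1.2 : ArtinGroup M) ∈ PP M X Y ρ :=
  Subgroup.subset_closure (Or.inl ⟨x.1.1, x.1.1.2, x.1.2, x.1.2.2, x.2, rfl⟩)

/-- the product map -/
private def ewm (h : SqW M X Y c d) (ρ : ArtinGroup M →* F2 × F2) :
    fib (ewp M X ρ) (ewq M Y ρ) →* PP M X Y ρ :=
  ((MonoidHom.noncommCoprod (GX M X).subtype (GX M Y).subtype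
    (fun a b => gw_comm h a.1 a.2 b.1 b.2)).comp (fib (ewp M X ρ) (ewq M Y ρ)).subtype).codRestrict
      _ (ew_mem ρ)

private theorem ewm_val (h : SqW M X Y c d) (ρ : ArtinGroup M →* F2 × F2)
    (x : fib (ewp M X ρ) (ewq M Y ρ)) :
    (ewm h ρ x : ArtinGroup M) = (x.1.1 : ArtinGroup M) * (x.1.2 : ArtinGroup M) := rfl

/-- `w` commutes with the generators in `cen M X w`, hence with the subgroup they generate -/
private theorem ew_cen (X : Set S) (w : S) :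
    ∀ a ∈ GX M (cen M X w), gen M w * a = a * gen M w := by
  have h1 : GX M (cen M X w) ≤ Subgroup.centralizer {gen M w} := by
    refine (Subgroup.closure_le _).2 ?_
    rintro _ ⟨x, ⟨hx, hwx⟩, rfl⟩
    refine Subgroup.mem_centralizer_iff.2 ?_
    rintro _ rfl
    have hne : w ≠ x := by
      rintro rfl
      rw [M.diagonal] at hwx
      omega
    have h2 := art_rel M hne (by rw [hwx]; norm_num)
    rwa [hwx, alt_two, alt_two] at h2
  intro a ha
  exact Subgroup.mem_centralizer_iff.1 (h1 ha) _ rfl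

private theorem ew_mono (X : Set S) (w : S) : GX M (cen M X w) ≤ GX M X :=
  Subgroup.closure_mono (Set.image_mono fun _ hx => hx.1)

/-- two homomorphisms which agree on generators -/
private theorem ew_agree {Γ : Type} [Group Γ] (X : Set S) (Θ : ArtinGroup M →* Γ)
    (f : GX M X →* Γ)
    (hf : ∀ x (hx : x ∈ X), Θ (gen M x) = f ⟨gen M x, Subgroup.subset_closure ⟨x, hx, rfl⟩⟩)
    (a : ArtinGroup M) (ha : a ∈ GX M X) : Θ a = f ⟨a, ha⟩ := by
  induction ha using Subgroup.closure_induction with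
  | mem a ha =>
    obtain ⟨x, hx, rfl⟩ := ha
    exact hf x hx
  | one => rw [map_one]; exact (map_one f).symm
  | mul a b ha hb iha ihb =>
    rw [map_mul, iha, ihb, ← map_mul]
    rfl
  | inv a ha iha =>
    rw [map_inv, iha, ← map_inv]
    rfl

/-- the relation in `PP` from the relation in the group -/
private theorem ew_rel {G Γ : Type} [Group G] [Group Γ] (P : Subgroup G) (θ : P →* Γ) (a b : P)
    (m : ℕ) (h : alt (a : G) (b : G) m = alt (b : G) (a : G) m) :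
    alt (θ a) (θ b) m = alt (θ b) (θ a) m := by
  have h1 : alt a b m = alt b a m := by
    apply P.subtype_injective
    rw [map_alt', map_alt']
    exact h
  rw [← map_alt', ← map_alt', h1]

private theorem ew_surjX (hρ : IsRho M X Y c d ρ) (w : S)
    (hw : ∀ i, ∃ x ∈ X, c x = i ∧ M w x = 2) :
    ∀ x : QQ, ∃ a : GX M X, (a : ArtinGroup M) ∈ GX M (cen M X w) ∧ ewp M X ρ a = x := by
  have h1 : (GX M (cen M X w)).map (piQ.comp ((MonoidHom.fst F2 F2).comp ρ)) = ⊤ := by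
    rw [eq_top_iff, ← PresentedGroup.closure_range_of qRels, Subgroup.closure_le]
    rintro _ ⟨i, rfl⟩
    obtain ⟨x, hx, hi, hwx⟩ := hw i
    refine ⟨gen M x, Subgroup.subset_closure ⟨x, ⟨hx, hwx⟩, rfl⟩, ?_⟩
    show piQ (ρ (gen M x)).1 = _
    rw [hρ.onX x hx, hi]
    rfl
  intro x
  have : x ∈ (GX M (cen M X w)).map (piQ.comp ((MonoidHom.fst F2 F2).comp ρ)) := by
    rw [h1]; trivial
  obtain ⟨a, ha, hax⟩ := this
  exact ⟨⟨a, ew_mono X w ha⟩, ha, hax⟩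

private theorem ew_surjY (hρ : IsRho M X Y c d ρ) (w : S)
    (hw : ∀ i, ∃ x ∈ Y, d x = i ∧ M w x = 2) :
    ∀ x : QQ, ∃ a : GX M Y, (a : ArtinGroup M) ∈ GX M (cen M Y w) ∧ ewq M Y ρ a = x := by
  have h1 : (GX M (cen M Y w)).map (piQ.comp ((MonoidHom.snd F2 F2).comp ρ)) = ⊤ := by
    rw [eq_top_iff, ← PresentedGroup.closure_range_of qRels, Subgroup.closure_le]
    rintro _ ⟨i, rfl⟩
    obtain ⟨x, hx, hi, hwx⟩ := hw i
    refine ⟨gen M x, Subgroup.subset_closure ⟨x, ⟨hx, hwx⟩, rfl⟩, ?_⟩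
    show piQ (ρ (gen M x)).2 = _
    rw [hρ.onY x hx, hi]
    rfl
  intro x
  have : x ∈ (GX M (cen M Y w)).map (piQ.comp ((MonoidHom.snd F2 F2).comp ρ)) := by
    rw [h1]; trivial
  obtain ⟨a, ha, hax⟩ := this
  exact ⟨⟨a, ew_mono Y w ha⟩, ha, hax⟩

theorem extw_w (h : SqW M X Y c d) (hρ : IsRho M X Y c d ρ) {Γ : Type} [Group Γ] [Finite Γ]
    (θ : PP M X Y ρ →* Γ) :
    ∃ Θ : ArtinGroup M →* Γ, ∀ p : PP M X Y ρ, Θ p.1 = θ p := by
  classical
  have hp : Function.Surjective (ewp M X ρ) := fun x => by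
    obtain ⟨a, ha, hax⟩ := (gw_surj h hρ).1 x
    exact ⟨⟨a, ha⟩, hax⟩
  have hq : Function.Surjective (ewq M Y ρ) := fun x => by
    obtain ⟨a, ha, hax⟩ := (gw_surj h hρ).2 x
    exact ⟨⟨a, ha⟩, hax⟩
  obtain ⟨f, g, hfg, hφ, hf, hg⟩ := ext0 super_QQ (ewp M X ρ) (ewq M Y ρ) hp hq
    (θ.comp (ewm h ρ))
  have hP1 : ∀ (a : GX M X) (b : GX M Y), ewp M X ρ a = ewq M Y ρ b →
      ∃ h : (a : ArtinGroup M) * b ∈ PP M X Y ρ, θ ⟨_, h⟩ = f a * g b :=
    fun a b hab => ⟨ew_mem ρ ⟨(a, b), hab⟩, hφ ⟨(a, b), hab⟩⟩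
  have hP2 : ∀ (b : GX M Y) (a : GX M X), ewq M Y ρ b = ewp M X ρ a →
      ∃ h : (b : ArtinGroup M) * a ∈ PP M X Y ρ, θ ⟨_, h⟩ = g b * f a := by
    intro b a hab
    obtain ⟨h1, h2⟩ := hP1 a b hab.symm
    have e := gw_comm h a.1 a.2 b.1 b.2
    refine ⟨by rw [← e]; exact h1, ?_⟩
    rw [← hfg, ← h2]
    congr 1
    exact Subtype.ext e.symm
  have hgX : ∀ x ∈ X, gen M x ∈ GX M X := fun x hx => Subgroup.subset_closure ⟨x, hx, rfl⟩
  have hgY : ∀ x ∈ Y, gen M x ∈ GX M Y := fun x hx => Subgroup.subset_closure ⟨x, hx, rfl⟩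
  have hgW : ∀ w, w ∉ X → w ∉ Y → gen M w ∈ PP M X Y ρ := fun w h1 h2 =>
    Subgroup.subset_closure (Or.inr ⟨w, ⟨h1, h2⟩, rfl⟩)
  obtain ⟨F, FX, FY, FW⟩ : ∃ F : S → Γ, (∀ x (hx : x ∈ X), F x = f ⟨gen M x, hgX x hx⟩) ∧
      (∀ x (hx : x ∈ Y), F x = g ⟨gen M x, hgY x hx⟩) ∧
      (∀ x (h1 : x ∉ X) (h2 : x ∉ Y), F x = θ ⟨gen M x, hgW x h1 h2⟩) := by
    refine ⟨fun s => if h1 : s ∈ X then f ⟨gen M s, hgX s h1⟩ else
      if h2 : s ∈ Y then g ⟨gen M s, hgY s h2⟩ else θ ⟨gen M s, hgW s h1 h2⟩, ?_, ?_, ?_⟩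
    · intro x hx
      exact dif_pos hx
    · intro x hx
      have h1 : x ∉ X := fun h1 => sqw_disjoint h x h1 hx
      simp only [dif_neg h1, dif_pos hx]
    · intro x h1 h2
      simp only [dif_neg h1, dif_neg h2]
  -- values of `f` and `g` for a good generator `w`
  have good : ∀ w, w ∉ X → w ∉ Y →
      ((∀ i, ∃ x ∈ X, c x = i ∧ M w x = 2) ∨ (∀ i, ∃ y ∈ Y, d y = i ∧ M w y = 2)) →
      (∀ a : GX M X, ∃ n : ArtinGroup M, gen M w * n = n * gen M w ∧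
        ∃ h : (a : ArtinGroup M) * n ∈ PP M X Y ρ, θ ⟨_, h⟩ = f a) ∧
      (∀ b : GX M Y, ∃ n : ArtinGroup M, gen M w * n = n * gen M w ∧
        ∃ h : (b : ArtinGroup M) * n ∈ PP M X Y ρ, θ ⟨_, h⟩ = g b) := by
    rintro w - - (hw | hw)
    · obtain ⟨h1, h2⟩ := key super_QQ (GX M X) (GX M Y) (PP M X Y ρ) (gw_comm h) (ewp M X ρ)
        (ewq M Y ρ) θ f g hP1 (GX M (cen M X w)) (ew_mono X w) (ew_surjX hρ w hw)
      refine ⟨fun a => ?_, fun b => ?_⟩
      · obtain ⟨n, hn, h3⟩ := h1 a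
        exact ⟨n, ew_cen X w n hn, h3⟩
      · obtain ⟨n, hn, h3⟩ := h2 b
        exact ⟨n, ew_cen X w n hn, h3⟩
    · obtain ⟨h1, h2⟩ := key super_QQ (GX M Y) (GX M X) (PP M X Y ρ)
        (fun b hb a ha => (gw_comm h a ha b hb).symm) (ewq M Y ρ) (ewp M X ρ) θ g f hP2
        (GX M (cen M Y w)) (ew_mono Y w) (ew_surjY hρ w hw)
      refine ⟨fun a => ?_, fun b => ?_⟩
      · obtain ⟨n, hn, h3⟩ := h2 a
        exact ⟨n, ew_cen Y w n hn, h3⟩
      · obtain ⟨n, hn, h3⟩ := h1 b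
        exact ⟨n, ew_cen Y w n hn, h3⟩
  -- the relations
  have relXX : ∀ s ∈ X, ∀ t ∈ X, s ≠ t → M s t ≠ 0 →
      alt (F s) (F t) (M s t) = alt (F t) (F s) (M s t) := by
    intro s hs t ht hst h0
    rw [FX s hs, FX t ht]
    exact ew_rel _ f _ _ _ (art_rel M hst h0)
  have relYY : ∀ s ∈ Y, ∀ t ∈ Y, s ≠ t → M s t ≠ 0 →
      alt (F s) (F t) (M s t) = alt (F t) (F s) (M s t) := by
    intro s hs t ht hst h0
    rw [FY s hs, FY t ht]
    exact ew_rel _ g _ _ _ (art_rel M hst h0)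
  have relXY : ∀ s ∈ X, ∀ t ∈ Y, alt (F s) (F t) (M s t) = alt (F t) (F s) (M s t) := by
    intro s hs t ht
    rw [h.XY s hs t ht, alt_two, alt_two, FX s hs, FY t ht]
    exact hfg _ _
  have relWW : ∀ s, s ∉ X → s ∉ Y → ∀ t, t ∉ X → t ∉ Y → s ≠ t → M s t ≠ 0 →
      alt (F s) (F t) (M s t) = alt (F t) (F s) (M s t) := by
    intro s h1 h2 t h3 h4 hst h0
    rw [FW s h1 h2, FW t h3 h4]
    exact ew_rel _ θ _ _ _ (art_rel M hst h0)
  have relZW : ∀ s ∈ X ∪ Y, ∀ w, w ∉ X → w ∉ Y → M s w ≠ 0 →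
      alt (F s) (F w) (M s w) = alt (F w) (F s) (M s w) := by
    intro s hs w h1 h2 h0
    have hne : s ≠ w := by
      rintro rfl
      rcases hs with hs | hs
      · exact h1 hs
      · exact h2 hs
    have hsym : M s w = M w s := M.symmetric s w
    have hgood : (∀ i, ∃ x ∈ X, c x = i ∧ M w x = 2) ∨ (∀ i, ∃ y ∈ Y, d y = i ∧ M w y = 2) := by
      rcases h.W w h1 h2 with h3 | h3
      · exact absurd (hsym.trans (h3 s hs)) h0
      · exact h3
    obtain ⟨hgf, hgg⟩ := good w h1 h2 hgood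
    rw [FW w h1 h2]
    refine pow_rel (PP M X Y ρ) θ (gen M w) (hgW w h1 h2) (gen M s) (F s) ?_ (M s w)
      (by rw [hsym]; exact h.ev w h1 h2 s hs) (art_rel M hne h0)
    intro j
    rcases hs with hs | hs
    · obtain ⟨n, hn, h3, h4⟩ := hgf (⟨gen M s, hgX s hs⟩ ^ j)
      exact ⟨n, hn, h3, by rw [FX s hs, ← map_pow]; exact h4⟩
    · obtain ⟨n, hn, h3, h4⟩ := hgg (⟨gen M s, hgY s hs⟩ ^ j)
      exact ⟨n, hn, h3, by rw [FY s hs, ← map_pow]; exact h4⟩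
  have hrel : ∀ s t, s ≠ t → M s t ≠ 0 →
      alt (F s) (F t) (M s t) = alt (F t) (F s) (M s t) := by
    intro s t hst h0
    have hsym : M s t = M t s := M.symmetric s t
    have h0' : M t s ≠ 0 := by
      rw [← hsym]
      exact h0
    by_cases sX : s ∈ X
    · by_cases tX : t ∈ X
      · exact relXX s sX t tX hst h0
      · by_cases tY : t ∈ Y
        · exact relXY s sX t tY
        · exact relZW s (Or.inl sX) t tX tY h0
    · by_cases sY : s ∈ Y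
      · by_cases tX : t ∈ X
        · rw [hsym]
          exact (relXY t tX s sY).symm
        · by_cases tY : t ∈ Y
          · exact relYY s sY t tY hst h0
          · exact relZW s (Or.inr sY) t tX tY h0
      · by_cases tX : t ∈ X
        · rw [hsym]
          exact (relZW t (Or.inl tX) s sX sY h0').symm
        · by_cases tY : t ∈ Y
          · rw [hsym]
            exact (relZW t (Or.inr tY) s sX sY h0').symm
          · exact relWW s sX sY t tX tY hst h0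
  obtain ⟨Θ, hΘ⟩ := art_lift M F hrel
  refine ⟨Θ, ?_⟩
  have hle : PP M X Y ρ ≤ ((Θ.comp (PP M X Y ρ).subtype).eqLocus θ).map (PP M X Y ρ).subtype := by
    conv_lhs => rw [PP]
    rw [Subgroup.closure_le]
    rintro t (ht | ⟨w, ⟨h1, h2⟩, rfl⟩)
    · obtain ⟨a, ha, b, hb, hab, rfl⟩ := ht
      refine ⟨⟨a * b, Subgroup.subset_closure (Or.inl ⟨a, ha, b, hb, hab, rfl⟩)⟩, ?_, rfl⟩
      show Θ (a * b) = θ ⟨a * b, _⟩
      have e1 : Θ a = f ⟨a, ha⟩ := ew_agree X Θ f (fun x hx => by rw [hΘ, FX x hx]) a ha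
      have e2 : Θ b = g ⟨b, hb⟩ := ew_agree Y Θ g (fun x hx => by rw [hΘ, FY x hx]) b hb
      rw [map_mul, e1, e2]
      exact (hφ ⟨(⟨a, ha⟩, ⟨b, hb⟩), hab⟩).symm
    · refine ⟨⟨gen M w, hgW w h1 h2⟩, ?_, rfl⟩
      show Θ (gen M w) = θ ⟨gen M w, _⟩
      rw [hΘ, FW w h1 h2]
  intro p
  obtain ⟨y, hy, hyp⟩ := hle p.2
  have e : y = p := Subtype.ext hyp
  rw [← e]
  exact hy

end ProfArtin
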