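import Pool.Agent.Work.MP_f6e909_al.GQ.Dens

/-!
# Values of the extension in the subgroup, and relations of even length

`key`: let `A`, `B` be commuting subgroups of `G`, `p : A → Q`, `q : B → Q`, and let `P` contain
all `a * b` with `p a = q b`, with `θ (a * b) = f a * g b` there. If `C ≤ A` is mapped onto `Q`
(which has no finite quotients) then every value `f a`, `g b` has the form `θ (a * n)`,
`θ (b * n)` with `n ∈ C`.

`pow_rel`: if every power `F ^ j` has the form `θ (x ^ j * n)` with `n` commuting with `w ∈ P`,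
then a relation of even length between `x` and `w` gives the same relation between `F` and `θ w`.
-/

namespace ProfArtin

theorem key {G Q Γ : Type} [Group G] [Group Q] [Group Γ] [Finite Γ] (hQ : Super Q)
    (A B P : Subgroup G) (hAB : ∀ a ∈ A, ∀ b ∈ B, a * b = b * a) (p : A →* Q) (q : B →* Q)
    (θ : P →* Γ) (f : A →* Γ) (g : B →* Γ)
    (hP : ∀ (a : A) (b : B), p a = q b → ∃ h : (a : G) * b ∈ P, θ ⟨_, h⟩ = f a * g b)
    (C : Subgroup G) (hC : C ≤ A) (hs : ∀ x : Q, ∃ a : A, (a : G) ∈ C ∧ p a = x) :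
    (∀ a : A, ∃ n ∈ C, ∃ h : (a : G) * n ∈ P, θ ⟨_, h⟩ = f a) ∧
      ∀ b : B, ∃ n ∈ C, ∃ h : (b : G) * n ∈ P, θ ⟨_, h⟩ = g b := by
  have fC : ∀ a : A, (a : G) ∈ C → ∃ r : A, (r : G) ∈ C ∧ p r = 1 ∧ f r = f a := by
    intro a ha
    obtain ⟨r, hr, hra⟩ := dens_aux hQ (p.comp (Subgroup.inclusion hC))
      (fun x => by
        obtain ⟨a, ha, hx⟩ := hs x
        exact ⟨⟨a, ha⟩, hx⟩) (f.comp (Subgroup.inclusion hC)) ⟨a, ha⟩
    exact ⟨⟨r.1, hC r.2⟩, r.2, hr, hra⟩
  constructor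
  · intro a
    obtain ⟨u, huC, hu⟩ := hs (p a)
    obtain ⟨r, hrC, hr1, hru⟩ := fC u huC
    obtain ⟨h, hh⟩ := hP (a * (u⁻¹ * r)) 1 (by
      rw [map_mul, map_mul, map_inv, hu, hr1, mul_one, mul_inv_cancel, map_one])
    have e : ((a * (u⁻¹ * r) : A) : G) * ((1 : B) : G) = (a : G) * ((u : G)⁻¹ * r) := by
      rw [Subgroup.coe_one, mul_one]
      rfl
    refine ⟨(u : G)⁻¹ * r, mul_mem (inv_mem huC) hrC, by rw [← e]; exact h, ?_⟩
    have e2 : (⟨(a : G) * ((u : G)⁻¹ * r), by rw [← e]; exact h⟩ : P) = ⟨_, h⟩ :=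
      Subtype.ext e.symm
    rw [e2, hh, map_one, mul_one, map_mul, map_mul, map_inv, hru, inv_mul_cancel, mul_one]
  · intro b
    obtain ⟨u, huC, hu⟩ := hs (q b)
    obtain ⟨r, hrC, hr1, hru⟩ := fC u huC
    obtain ⟨h, hh⟩ := hP (r⁻¹ * u) b (by
      rw [map_mul, map_inv, hr1, inv_one, one_mul, hu])
    have e : ((r⁻¹ * u : A) : G) * (b : G) = (b : G) * ((r : G)⁻¹ * u) :=
      hAB _ (r⁻¹ * u).2 _ b.2
    refine ⟨(r : G)⁻¹ * u, mul_mem (inv_mem hrC) huC, by rw [← e]; exact h, ?_⟩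
    have e2 : (⟨(b : G) * ((r : G)⁻¹ * u), by rw [← e]; exact h⟩ : P) = ⟨_, h⟩ :=
      Subtype.ext e.symm
    rw [e2, hh, map_mul, map_inv, hru, inv_mul_cancel, one_mul]

theorem pow_rel {G Γ : Type} [Group G] [Group Γ] (P : Subgroup G) (θ : P →* Γ) (w : G)
    (hw : w ∈ P) (x : G) (F : Γ)
    (hF : ∀ j : ℕ, ∃ n : G, w * n = n * w ∧ ∃ h : x ^ j * n ∈ P, θ ⟨_, h⟩ = F ^ j)
    (m : ℕ) (hm : Even m) (hrel : alt x w m = alt w x m) :
    alt F (θ ⟨w, hw⟩) m = alt (θ ⟨w, hw⟩) F m := by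
  obtain ⟨k, rfl⟩ := hm
  rw [← two_mul] at hrel ⊢
  rw [alt_even', alt_even'] at hrel ⊢
  set W := θ ⟨w, hw⟩ with hW
  -- elements of `P` over `(F W) ^ k F ^ (-k)`
  have step : ∀ k : ℕ, ∃ h : (x * w) ^ k * (x ^ k)⁻¹ ∈ P,
      θ ⟨_, h⟩ = (F * W) ^ k * (F ^ k)⁻¹ := by
    intro k
    induction k with
    | zero =>
      refine ⟨by simp, ?_⟩
      have : (⟨(x * w) ^ 0 * (x ^ 0)⁻¹, by simp⟩ : P) = 1 := by
        apply Subtype.ext
        simp
      rw [this]
      simp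
    | succ k ih =>
      obtain ⟨h, hh⟩ := ih
      obtain ⟨n, hn, h', hh'⟩ := hF (k + 1)
      set u : P := ⟨_, h⟩
      set z : P := ⟨_, h'⟩
      have e : (((u * (z * ⟨w, hw⟩ * z⁻¹) : P)) : G) =
          (x * w) ^ (k + 1) * (x ^ (k + 1))⁻¹ := by
        show (x * w) ^ k * (x ^ k)⁻¹ * (x ^ (k + 1) * n * w * (x ^ (k + 1) * n)⁻¹) = _
        have e1 : x ^ (k + 1) * n * w * (x ^ (k + 1) * n)⁻¹ =
            x ^ (k + 1) * w * (x ^ (k + 1))⁻¹ := by
          rw [mul_inv_rev, mul_assoc (x ^ (k + 1)) n w, ← hn]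
          group
        rw [e1, pow_succ (x * w) k, pow_succ x k]
        group
      refine ⟨by rw [← e]; exact Subtype.mem _, ?_⟩
      have e2 : (⟨(x * w) ^ (k + 1) * (x ^ (k + 1))⁻¹, by rw [← e]; exact Subtype.mem _⟩ : P) =
          u * (z * ⟨w, hw⟩ * z⁻¹) := Subtype.ext e.symm
      rw [e2, map_mul, map_mul, map_mul, map_inv, hh, hh', ← hW, pow_succ (F * W) k, pow_succ F k]
      group
  obtain ⟨h, hh⟩ := step k
  obtain ⟨n, hn, h', hh'⟩ := hF k
  set u : P := ⟨_, h⟩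
  set z : P := ⟨_, h'⟩
  have e3 : θ (u * z) = (F * W) ^ k := by
    rw [map_mul, hh, hh']
    group
  have e4 : ((u * z : P) : G) = (x * w) ^ k * n := by
    show (x * w) ^ k * (x ^ k)⁻¹ * (x ^ k * n) = _
    group
  -- `(x w) ^ k` commutes with `w`
  have c1 : w * (x * w) ^ k = (x * w) ^ k * w := by
    have e5 : w * (x * w) ^ k = (w * x) ^ k * w := by
      clear * -
      induction k with
      | zero => simp
      | succ k ih =>
        rw [pow_succ' (x * w), pow_succ (w * x)]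
        calc w * (x * w * (x * w) ^ k) = w * x * (w * (x * w) ^ k) := by simp only [mul_assoc]
          _ = w * x * ((w * x) ^ k * w) := by rw [ih]
          _ = ((w * x) ^ k * (w * x)) * w := by
            rw [← mul_assoc, (Commute.refl (w * x)).pow_right k]
    rw [e5, hrel]
  have c2 : (⟨w, hw⟩ : P) * (u * z) = u * z * ⟨w, hw⟩ := by
    apply Subtype.ext
    show w * ((u * z : P) : G) = ((u * z : P) : G) * w
    rw [e4, ← mul_assoc, c1, mul_assoc, hn, mul_assoc]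
  have c3 : W * (F * W) ^ k = (F * W) ^ k * W := by
    rw [← e3, hW, ← map_mul, c2, map_mul]
  have e6 : W * (F * W) ^ k = (W * F) ^ k * W := by
    clear * -
    induction k with
    | zero => simp
    | succ k ih =>
      rw [pow_succ' (F * W), pow_succ (W * F)]
      calc W * (F * W * (F * W) ^ k) = W * F * (W * (F * W) ^ k) := by simp only [mul_assoc]
        _ = W * F * ((W * F) ^ k * W) := by rw [ih]
        _ = ((W * F) ^ k * (W * F)) * W := by
          rw [← mul_assoc, (Commute.refl (W * F)).pow_right k]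
  rw [e6] at c3
  exact (mul_right_cancel c3).symm

end ProfArtin
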