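import Pool.Agent.Work.MP_f6e909_al.GP.Rho
import Pool.Agent.Work.MP_f6e909_al.GQ.Defs

/-!
# The homomorphism to `F₂ × F₂` under the weaker hypothesis (copy of `GP/Rho.lean`)
-/

namespace ProfArtin

theorem alt_even' {X : Type} [Monoid X] (a b : X) (k : ℕ) :
    alt a b (2 * k) = (a * b) ^ k := by
  induction k with
  | zero => simp [alt]
  | succ k ih =>
    have h : alt a b (2 * (k + 1)) = a * (b * alt a b (2 * k)) := rfl
    rw [h, ih, pow_succ', mul_assoc]

theorem sqw_disjoint {S : Type} {M : CoxeterMatrix S} {X Y : Set S} {c d : S → Fin 2}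
    (h : SqW M X Y c d) : ∀ s, s ∈ X → s ∉ Y := by
  intro s hs hs'
  have h1 := h.XY s hs s hs'
  rw [M.diagonal] at h1
  exact absurd h1 (by decide)

private theorem alt_one_even {X : Type} [Monoid X] (u : X) (m : ℕ) (hm : Even m) :
    alt u 1 m = alt 1 u m := by
  obtain ⟨k, rfl⟩ := hm
  rw [← two_mul, alt_even', alt_even', mul_one, one_mul]

theorem rhow_exists {S : Type} (M : CoxeterMatrix S) (X Y : Set S) (c d : S → Fin 2)
    (h : SqW M X Y c d) : ∃ ρ : ArtinGroup M →* F2 × F2, IsRho M X Y c d ρ := by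
  classical
  let f : S → F2 × F2 := fun s => if s ∈ X then (FreeGroup.of (c s), 1) else
    if s ∈ Y then (1, FreeGroup.of (d s)) else 1
  have fX : ∀ s, s ∈ X → f s = (FreeGroup.of (c s), 1) := fun s hs => if_pos hs
  have fY : ∀ s, s ∈ Y → f s = (1, FreeGroup.of (d s)) := by
    intro s hs
    have hn : s ∉ X := fun hx => sqw_disjoint h s hx hs
    show (if s ∈ X then (FreeGroup.of (c s), 1) else
      if s ∈ Y then (1, FreeGroup.of (d s)) else 1) = _
    rw [if_neg hn, if_pos hs]
  have fW : ∀ s, s ∉ X → s ∉ Y → f s = 1 := by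
    intro s hs hs'
    show (if s ∈ X then (FreeGroup.of (c s), 1) else
      if s ∈ Y then (1, FreeGroup.of (d s)) else 1) = _
    rw [if_neg hs, if_neg hs']
  have hW : ∀ w z, w ∉ X → w ∉ Y → z ∈ X ∪ Y → M w z ≠ 0 → Even (M w z) :=
    fun w z hw1 hw2 hz _ => h.ev w hw1 hw2 z hz
  obtain ⟨ρ, hρ⟩ := art_lift M f (by
    intro s t hst h0
    by_cases hs : s ∈ X ∪ Y
    · by_cases ht : t ∈ X ∪ Y
      · rcases hs with hs | hs <;> rcases ht with ht | ht
        · by_cases hc : c s = c t
          · rw [fX s hs, fX t ht, hc]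
          · exact absurd (h.XX s hs t ht hc) h0
        · rw [fX s hs, fY t ht, h.XY s hs t ht, alt_two, alt_two]
          simp
        · rw [M.symmetric s t, fY s hs, fX t ht, h.XY t ht s hs, alt_two, alt_two]
          simp
        · by_cases hc : d s = d t
          · rw [fY s hs, fY t ht, hc]
          · exact absurd (h.YY s hs t ht hc) h0
      · have h1 : t ∉ X := fun hh => ht (Or.inl hh)
        have h2 : t ∉ Y := fun hh => ht (Or.inr hh)
        rw [fW t h1 h2]
        rw [M.symmetric s t] at h0 ⊢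
        exact alt_one_even _ _ (hW t s h1 h2 hs h0)
    · have h1 : s ∉ X := fun hh => hs (Or.inl hh)
      have h2 : s ∉ Y := fun hh => hs (Or.inr hh)
      rw [fW s h1 h2]
      by_cases ht : t ∈ X ∪ Y
      · exact (alt_one_even _ _ (hW s t h1 h2 ht h0)).symm
      · rw [fW t (fun hh => ht (Or.inl hh)) (fun hh => ht (Or.inr hh))])
  exact ⟨ρ, fun x hx => by rw [hρ, fX x hx], fun y hy => by rw [hρ, fY y hy],
    fun w h1 h2 => by rw [hρ, fW w h1 h2]⟩

end ProfArtin
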